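import Pool.Agent.HLf6dccc.Final

/-!
MP_f6dccc_co, Q1 (full answer, affirmative).

The proof: at `t = -1` Macdonald's formula (III.2.2) gives
`P_λ(z,-z,x;-1) = ∑_{r : m_r(λ) ≥ 2} (-z²)^r P_{λ∖(r,r)}(x;-1)`, hence
`w(z,-z,x;-1) = (1 - a c z²)/(1 - a b c d z⁴) · w(x;-1)`, so `L(z,-z,x) = L(x)`; a symmetric series
over a `ℚ`-algebra with this cancellation property is a series in the odd power sums.
-/

namespace Pool.Agent.Results.MP_f6dccc_co.LogHallLittlewood

open Pool.Agent.HLf6dccc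

/-- `hallLittlewoodP lam` is the Hall–Littlewood function `P_λ(x;t)` (the unique power series over
`ℤ[t]` in countably many variables whose restrictions to `n ≥ ℓ(λ)` variables are given by
Macdonald's definition), and
`L = log w(x;-1) + ∑_{n odd} (1/2n) aⁿcⁿ p_{2n}
  + ∑_{n ≥ 2 even} (1/2n) a^{n/2}c^{n/2}(a^{n/2}c^{n/2} - 2b^{n/2}d^{n/2}) p_{2n}`
lies in `ℚ[a,b,c,d][[p_1,p_3,p_5,…]]`. -/
theorem result :
    (∀ (m : ℕ) (lam : Nat.Partition m) (P : MvPowerSeries ℕ (Polynomial ℤ)),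
      IsHallLittlewoodP lam P ↔ P = hallLittlewoodP lam) ∧
    InOddPowerSums L := by
  refine ⟨fun m lam P => ?_, inOdd_L⟩
  rw [hallLittlewoodP_eq]
  exact isHallLittlewoodP_iff lam P

end Pool.Agent.Results.MP_f6dccc_co.LogHallLittlewood
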